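import Pool.Agent.V1153.OD.Fin

/-!
# Holomorphic maps with recurrent values along orbits, uniformly in bounded families of varieties

Let `X` be the complement of the hypersurface `Q = 0` in the closed subset `V(E)` of the projective
space `P^n`, where `Q` and the forms in `E` are of degree at most `D`; if `Q` is constant, then `X`
is projective. We consider holomorphic maps `f : ℂ^k → X`, for arbitrary `k`, and biholomorphic maps
`T` of `ℂ^k` onto itself such that for each point `z` the sequence of points `f (T^h z)`, `h ∈ ℤ`, is
given by iterated recurrences of type `(s, r, e)`: up to nonzero factors, the homogeneous coordinates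
of `f (T^h z)`, and the inverses of the values of `Q` at them, are polynomials of degree at most `e`
in each of the entries of invertible matrices `X_1(h), ..., X_s(h)` of size `r` and their inverses,
such that the entries of `X_l(g + h) X_l(h)⁻¹` are, for each `g`, such polynomials in the entries of
`X_i(h)` and `X_i(h)⁻¹`, `i < l`. Examples are the maps given by theta functions, exponential
polynomials and functions like `exp (z^m)`, for translations `T`, and the maps satisfying
`f (q z) = A(z) f(z)`, where `A` is an invertible matrix of Laurent polynomials, for `T z = q z`.

If there are no nonconstant morphisms of degree at most `N` from the multiplicative group to `X`,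
where `N` depends only on `n`, `D` and `(s, r, e)`, then all such maps have a period with respect to
`T`, of length at most `N`. So they are constant if `T` is the multiplication by a number which is
not a root of unity, and they factor through a complex torus if the condition holds for the
translations by the elements of a real basis of `ℂ^k`. In particular, if `X` is projective and every
holomorphic map from a one-dimensional complex torus to `X` is constant, then every entire curve in
`X` which satisfies the condition for two translations which are linearly independent over the real
numbers is constant.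
-/

set_option autoImplicit false

namespace Pool.Agent.Results.MP_b9fedf_ag.RecurrentOrbits

open MvPolynomial Pool.Agent.V1153.OD
open Pool.Agent.V1153.UG (GmBdd DegLe)

/-- For all `n`, `D` and types `(s, r, e)` there is `N` such that for all `X`, the complement of
`Q = 0` in the closed subset `V(E)` of `P^n`, with equations of degree at most `D`, which do not
contain the image of a nonconstant morphism of degree at most `N` from the multiplicative group (for
instance, for all `X` such that every holomorphic map from a one-dimensional complex torus to `V(E)`
is constant), and all holomorphic maps `f : ℂ^k → X`: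

(1) if the values of `f` along the orbits of `T` are given by iterated recurrences of type
`(s, r, e)`, then `f ∘ T^m = f` for some `m`, `0 < m ≤ N`;

(2) if this holds for the translations by the elements of a real basis of `ℂ^k`, then `f` factors
through a complex torus `ℂ^k / L`;

(3) if this holds for the multiplication by some `q` which is not a root of unity, then `f` is
constant;

(4) if every holomorphic map from a one-dimensional complex torus to `V(E)` is constant, `k = 1`, and
the condition holds for two translations which are linearly independent over the real numbers, then
`f` is constant. -/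
theorem result (n D s r e : ℕ) : ∃ N : ℕ, ∀ (E : Set (MvPolynomial (Fin (n + 1)) ℂ))
    (Q : MvPolynomial (Fin (n + 1)) ℂ), DegLe D E Q →
      ((∀ P, ¬ GmBdd (Ideal.span E) Q N P) ∨ TorusConst E) →
      (∀ (k : ℕ) (f : (Fin k → ℂ) → Fin (n + 1) → ℂ), HolOff E Q f →
        (∀ T : Equiv.Perm (Fin k → ℂ), Differentiable ℂ T → OrbOff s r e Q T f →
          ∃ m, 0 < m ∧ m ≤ N ∧ ∀ z, ∃ c : ℂ, f ((T ^ m) z) = c • f z) ∧
        (∀ ω : Fin (2 * k) → Fin k → ℂ, LinearIndependent ℝ ω →
          (∀ i, OrbOff s r e Q (Equiv.addRight (ω i)) f) →
            ∃ L : AddSubgroup (Fin k → ℂ), DiscreteTopology L ∧
              Submodule.span ℝ (L : Set (Fin k → ℂ)) = ⊤ ∧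
                ∀ z, ∀ l ∈ L, ∃ c : ℂ, f (z + l) = c • f z) ∧
        (∀ q : ℂˣ, (∀ m : ℕ, 0 < m → q ^ m ≠ 1) → OrbOff s r e Q (MulAction.toPerm q) f →
          ∀ z w, ∃ c : ℂ, f z = c • f w)) ∧
      (TorusConst E → ∀ f : (Fin 1 → ℂ) → Fin (n + 1) → ℂ, HolOff E Q f →
        ∀ ω₁ ω₂ : ℂ, LinearIndependent ℝ ![ω₁, ω₂] →
          OrbOff s r e Q (Equiv.addRight fun _ => ω₁) f →
          OrbOff s r e Q (Equiv.addRight fun _ => ω₂) f → ∀ z w, ∃ c : ℂ, f z = c • f w) :=
  final n D s r e

end Pool.Agent.Results.MP_b9fedf_ag.RecurrentOrbits
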